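import Pool.Agent.W762.AX.Lx
import Pool.Agent.Q208.KN.LAP

/-!
# Laplace's method to all orders in several variables, abstract form

`G x z` is a family of holomorphic functions of `z` in the disc of radius `r`; the integral of
`G x (‖x‖ / √N)` over the ball of radius `η √N` has an expansion in powers of `1 / N`.
-/

set_option autoImplicit false

namespace Pool.Agent.Q162.HX

open Finset Filter Topology Metric Complex MeasureTheory
open Pool.Agent.W762.AX
open scoped Real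

/-- the coefficients of a reflected function -/
theorem co_neg {r : ℝ} (F : ℂ → ℂ) (m : ℕ) :
    co r (fun z => F (-z)) m = (-1) ^ m * co r F m := by
  unfold co
  have key : (∮ z in C(0, r), (z ^ (m + 1))⁻¹ * F (-z)) =
      (-1) ^ m * ∮ z in C(0, r), (z ^ (m + 1))⁻¹ * F z := by
    show (∫ θ in (0 : ℝ)..2 * π, deriv (circleMap 0 r) θ • (((circleMap 0 r θ) ^ (m + 1))⁻¹ *
      F (-(circleMap 0 r θ)))) = (-1) ^ m * ∫ θ in (0 : ℝ)..2 * π, deriv (circleMap 0 r) θ •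
        (((circleMap 0 r θ) ^ (m + 1))⁻¹ * F (circleMap 0 r θ))
    set f : ℝ → ℂ := fun θ => deriv (circleMap 0 r) θ •
        (((circleMap 0 r θ) ^ (m + 1))⁻¹ * F (circleMap 0 r θ)) with hf
    have hper : Function.Periodic f (2 * π) := by
      intro θ
      simp only [hf, deriv_circleMap]
      rw [periodic_circleMap 0 r θ]
    have hcm : ∀ θ : ℝ, circleMap 0 r (θ + π) = - circleMap 0 r θ := by
      intro θ
      unfold circleMap
      push_cast
      rw [zero_add, zero_add, add_mul, Complex.exp_add, Complex.exp_pi_mul_I]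
      ring
    have h1 : ∀ θ : ℝ, deriv (circleMap 0 r) θ • (((circleMap 0 r θ) ^ (m + 1))⁻¹ *
        F (-(circleMap 0 r θ))) = (-1) ^ m * f (θ + π) := by
      intro θ
      simp only [hf, deriv_circleMap, hcm, smul_eq_mul]
      rw [neg_pow (circleMap 0 r θ) (m + 1), mul_inv]
      have h2 : (((-1 : ℂ)) ^ (m + 1))⁻¹ = (-1) ^ (m + 1) := by
        rw [← inv_pow]; norm_num
      rw [h2]
      have h3 : ((-1 : ℂ)) ^ m * (-1) ^ (m + 1) = -1 := by
        rw [← pow_add, show m + (m + 1) = 2 * m + 1 by ring, pow_add, pow_mul]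
        norm_num
      have h4 : ((-1 : ℂ)) ^ m * (-(circleMap 0 r θ) * I * ((-1) ^ (m + 1) *
          ((circleMap 0 r θ) ^ (m + 1))⁻¹ * F (-(circleMap 0 r θ)))) =
          ((-1 : ℂ)) ^ m * (-1) ^ (m + 1) * (-(circleMap 0 r θ) * I *
          (((circleMap 0 r θ) ^ (m + 1))⁻¹ * F (-(circleMap 0 r θ)))) := by ring
      rw [h4, h3]
      ring
    simp_rw [h1]
    rw [intervalIntegral.integral_const_mul]
    congr 1
    have h2 := intervalIntegral.integral_comp_add_right (a := 0) (b := 2 * π) f π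
    rw [h2]
    have h3 := hper.intervalIntegral_add_eq (0 + π) 0
    rw [zero_add] at h3
    rw [zero_add, add_comm (2 * π) π, h3, zero_add]
  rw [key, smul_eq_mul, smul_eq_mul]
  ring

theorem co_congr {r : ℝ} (hr : 0 < r) {F F' : ℂ → ℂ} (h : ∀ z, ‖z‖ = r → F z = F' z) (m : ℕ) :
    co r F m = co r F' m := by
  unfold co
  congr 1
  refine circleIntegral.integral_congr hr.le fun z hz => ?_
  have hz' : ‖z‖ = r := by simpa using hz
  show (z ^ (m + 1))⁻¹ * F z = (z ^ (m + 1))⁻¹ * F' z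
  rw [h z hz']

/-- measurability of the coefficients -/
theorem co_meas {X : Type} [MeasurableSpace X] {r : ℝ} (hr : 0 < r) {G : X → ℂ → ℂ}
    (hc : ∀ x, ContinuousOn (G x) (sphere 0 r))
    (hm : ∀ z : ℂ, ‖z‖ = r → StronglyMeasurable fun x => G x z) (m : ℕ) :
    StronglyMeasurable fun x => co r (G x) m := by
  have hmap : ∀ θ : ℝ, circleMap 0 r θ ∈ sphere (0 : ℂ) r := fun θ =>
    circleMap_mem_sphere 0 hr.le θ
  have hc0 : ∀ θ : ℝ, circleMap 0 r θ ≠ 0 := fun θ => circleMap_ne_center hr.ne'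
  have hcc : Continuous fun θ : ℝ => circleMap 0 r θ := continuous_circleMap 0 r
  have h1 : StronglyMeasurable (Function.uncurry fun (θ : ℝ) (x : X) =>
      deriv (circleMap 0 r) θ • (((circleMap 0 r θ) ^ (m + 1))⁻¹ * G x (circleMap 0 r θ))) := by
    refine stronglyMeasurable_uncurry_of_continuous_of_stronglyMeasurable ?_ ?_
    · intro x
      simp only [deriv_circleMap, smul_eq_mul]
      refine (hcc.mul continuous_const).mul (Continuous.mul ?_ ?_)
      · exact (hcc.pow (m + 1)).inv₀ fun θ => pow_ne_zero _ (hc0 _)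
      · exact (hc x).comp_continuous hcc hmap
    · intro θ
      have := hm (circleMap 0 r θ) (by simpa using hmap θ)
      exact (this.const_mul (((circleMap 0 r θ) ^ (m + 1))⁻¹)).const_smul
        (deriv (circleMap 0 r) θ)
  have h2 : StronglyMeasurable fun x : X => ∫ θ in Set.Ioc (0 : ℝ) (2 * π),
      deriv (circleMap 0 r) θ • (((circleMap 0 r θ) ^ (m + 1))⁻¹ * G x (circleMap 0 r θ)) :=
    h1.integral_prod_left'
  have h3 : (fun x => co r (G x) m) = fun x : X => (2 * π * I : ℂ)⁻¹ •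
      ∫ θ in Set.Ioc (0 : ℝ) (2 * π),
      deriv (circleMap 0 r) θ • (((circleMap 0 r θ) ^ (m + 1))⁻¹ * G x (circleMap 0 r θ)) := by
    funext x
    show (2 * π * I : ℂ)⁻¹ • (∫ θ in (0 : ℝ)..2 * π, deriv (circleMap 0 r) θ •
      (((circleMap 0 r θ) ^ (m + 1))⁻¹ * G x (circleMap 0 r θ))) = _
    rw [intervalIntegral.integral_of_le (by positivity)]
  rw [h3]
  exact h2.const_smul (2 * π * I : ℂ)⁻¹

section

variable {ι : Type} [Fintype ι]

/-- Gaussian moments -/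
noncomputable def JN (ι : Type) [Fintype ι] (a : ℝ) (K : ℕ) : ℝ :=
  ∫ x : ι → ℝ, Real.exp (-a * ‖x‖ ^ 2) * ‖x‖ ^ (2 * K)

theorem JN_fun_nonneg (a : ℝ) (K : ℕ) (x : ι → ℝ) :
    0 ≤ Real.exp (-a * ‖x‖ ^ 2) * ‖x‖ ^ (2 * K) := by positivity

theorem sum_sq_le (x : ι → ℝ) : ∑ i, x i ^ 2 ≤ (Fintype.card ι) * ‖x‖ ^ 2 := by
  have h1 : ∀ i ∈ (univ : Finset ι), x i ^ 2 ≤ ‖x‖ ^ 2 := by
    intro i _
    rw [← sq_abs]
    exact pow_le_pow_left₀ (abs_nonneg _) (norm_le_pi_norm x i) 2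
  refine (Finset.sum_le_sum h1).trans (le_of_eq ?_)
  rw [Finset.sum_const, nsmul_eq_mul, Finset.card_univ]

theorem JN_int {a : ℝ} (ha : 0 < a) (K : ℕ) :
    Integrable fun x : ι → ℝ => Real.exp (-a * ‖x‖ ^ 2) * ‖x‖ ^ (2 * K) := by
  set n : ℝ := Fintype.card ι + 1 with hn
  have hn0 : 0 < n := by positivity
  have h1 := (Pool.Agent.Q208.KN.gauss_pi_integrable ι (κ := a / (2 * n)) (by positivity)).const_mul
    ((2 / a) ^ K * (K.factorial : ℝ))
  refine h1.mono' ?_ (ae_of_all _ fun x => ?_)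
  · exact (((continuous_const.mul (continuous_norm.pow 2)).rexp).mul
      (continuous_norm.pow _)).aestronglyMeasurable
  · rw [Real.norm_of_nonneg (JN_fun_nonneg a K x)]
    have h2 : ‖x‖ ^ (2 * K) ≤ (2 / a) ^ K * (K.factorial : ℝ) * Real.exp (a / 2 * ‖x‖ ^ 2) := by
      have h3 := Real.pow_div_factorial_le_exp (a / 2 * ‖x‖ ^ 2) (by positivity) K
      rw [div_le_iff₀ (by positivity)] at h3
      have h4 : ‖x‖ ^ (2 * K) = (2 / a) ^ K * (a / 2 * ‖x‖ ^ 2) ^ K := by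
        rw [← mul_pow, pow_mul]
        congr 1
        field_simp
      rw [h4]
      have h5 : 0 ≤ (2 / a) ^ K := by positivity
      refine (mul_le_mul_of_nonneg_left h3 h5).trans (le_of_eq ?_)
      ring
    have h6 : Real.exp (-a * ‖x‖ ^ 2) * ‖x‖ ^ (2 * K) ≤ Real.exp (-a * ‖x‖ ^ 2) *
        ((2 / a) ^ K * (K.factorial : ℝ) * Real.exp (a / 2 * ‖x‖ ^ 2)) :=
      mul_le_mul_of_nonneg_left h2 (Real.exp_pos _).le
    refine h6.trans ?_
    have h7 : Real.exp (-a * ‖x‖ ^ 2) *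
        ((2 / a) ^ K * (K.factorial : ℝ) * Real.exp (a / 2 * ‖x‖ ^ 2)) =
        (2 / a) ^ K * (K.factorial : ℝ) * Real.exp (-(a / 2 * ‖x‖ ^ 2)) := by
      rw [show -(a / 2 * ‖x‖ ^ 2) = -a * ‖x‖ ^ 2 + a / 2 * ‖x‖ ^ 2 by ring, Real.exp_add]
      ring
    rw [h7]
    refine mul_le_mul_of_nonneg_left (Real.exp_le_exp.2 ?_) (by positivity)
    have h8 := sum_sq_le x
    have h9 : ∑ i, x i ^ 2 ≤ n * ‖x‖ ^ 2 := by
      refine h8.trans (mul_le_mul_of_nonneg_right ?_ (by positivity))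
      rw [hn]; linarith
    have h10 : a / (2 * n) * ∑ i, x i ^ 2 ≤ a / (2 * n) * (n * ‖x‖ ^ 2) :=
      mul_le_mul_of_nonneg_left h9 (by positivity)
    have h11 : a / (2 * n) * (n * ‖x‖ ^ 2) = a / 2 * ‖x‖ ^ 2 := by field_simp
    linarith

theorem JN_ge {a : ℝ} (ha : 0 < a) (K : ℕ) (s : Set (ι → ℝ)) :
    ∫ x in s, Real.exp (-a * ‖x‖ ^ 2) * ‖x‖ ^ (2 * K) ≤ JN ι a K :=
  setIntegral_le_integral (JN_int ha K) (ae_of_all _ (JN_fun_nonneg a K))

/-- hypotheses on the family -/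
structure HG (r a M : ℝ) (G : (ι → ℝ) → ℂ → ℂ) : Prop where
  r0 : 0 < r
  a0 : 0 < a
  dc : ∀ x, DiffContOnCl ℂ (G x) (ball 0 r)
  bd : ∀ x z, ‖z‖ ≤ r → ‖G x z‖ ≤ M * Real.exp (-a * ‖x‖ ^ 2)
  par : ∀ x z, ‖z‖ = r → G (-x) z = G x (-z)
  ms : ∀ z, ‖z‖ = r → StronglyMeasurable fun x => G x z

variable {r a M : ℝ} {G : (ι → ℝ) → ℂ → ℂ}

theorem HG.M0 (H : HG r a M G) : 0 ≤ M := by
  have h1 := (norm_nonneg _).trans (H.bd 0 0 (by rw [norm_zero]; exact H.r0.le))
  simpa using h1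

theorem HG.bd' (H : HG r a M G) (x : ι → ℝ) :
    ∀ z ∈ sphere (0 : ℂ) r, ‖G x z‖ ≤ M * Real.exp (-a * ‖x‖ ^ 2) := by
  intro z hz
  have hz' : ‖z‖ = r := by simpa using hz
  exact H.bd x z hz'.le

theorem HG.co_norm (H : HG r a M G) (x : ι → ℝ) (m : ℕ) :
    ‖co r (G x) m‖ ≤ M * Real.exp (-a * ‖x‖ ^ 2) / r ^ m :=
  W762.AX.co_norm H.r0 (H.bd' x) m

theorem HG.co_meas (H : HG r a M G) (m : ℕ) : StronglyMeasurable fun x => co r (G x) m := by
  refine Pool.Agent.Q162.HX.co_meas H.r0 (fun x => ?_) H.ms m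
  have := (H.dc x).continuousOn
  rw [closure_ball _ H.r0.ne'] at this
  exact this.mono sphere_subset_closedBall

theorem HG.co_par (H : HG r a M G) (x : ι → ℝ) (m : ℕ) :
    co r (G (-x)) m = (-1) ^ m * co r (G x) m := by
  rw [← co_neg]
  exact co_congr H.r0 (fun z hz => H.par x z hz) m

/-- integrand of the coefficient of `N ^ (-k)` -/
noncomputable def fN (r : ℝ) (G : (ι → ℝ) → ℂ → ℂ) (k : ℕ) (x : ι → ℝ) : ℂ :=
  co r (G x) (2 * k) * (‖x‖ : ℂ) ^ (2 * k)

/-- the coefficient of `N ^ (-k)` -/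
noncomputable def AN (r : ℝ) (G : (ι → ℝ) → ℂ → ℂ) (k : ℕ) : ℂ := ∫ x, fN r G k x

theorem HG.fN_meas (H : HG r a M G) (k : ℕ) : StronglyMeasurable (fN r G k) := by
  unfold fN
  exact (H.co_meas (2 * k)).mul
    ((Complex.continuous_ofReal.comp continuous_norm).pow (2 * k)).stronglyMeasurable

theorem HG.fN_norm (H : HG r a M G) (k : ℕ) (x : ι → ℝ) :
    ‖fN r G k x‖ ≤ M / r ^ (2 * k) * (Real.exp (-a * ‖x‖ ^ 2) * ‖x‖ ^ (2 * k)) := by
  unfold fN
  rw [norm_mul, norm_pow, Complex.norm_real, norm_norm]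
  have h1 := H.co_norm x (2 * k)
  have h2 : 0 ≤ ‖x‖ ^ (2 * k) := by positivity
  refine (mul_le_mul_of_nonneg_right h1 h2).trans (le_of_eq ?_)
  ring

theorem HG.fN_int (H : HG r a M G) (k : ℕ) : Integrable (fN r G k) :=
  ((JN_int H.a0 k).const_mul (M / r ^ (2 * k))).mono' (H.fN_meas k).aestronglyMeasurable
    (ae_of_all _ (H.fN_norm k))

theorem HG.tail (H : HG r a M G) {k K : ℕ} (hk : k ≤ K) {T : ℝ} (hT : 0 < T) :
    ‖(∫ x in closedBall (0 : ι → ℝ) T, fN r G k x) - AN r G k‖ ≤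
      M / r ^ (2 * k) / T ^ (2 * (K - k)) * JN ι a K := by
  have hM := H.M0
  have hr := H.r0
  have h1 := integral_add_compl (μ := volume) (s := closedBall (0 : ι → ℝ) T)
    measurableSet_closedBall (H.fN_int k)
  have h2 : (∫ x in closedBall (0 : ι → ℝ) T, fN r G k x) - AN r G k =
      -∫ x in (closedBall (0 : ι → ℝ) T)ᶜ, fN r G k x := by
    unfold AN
    rw [← h1]; ring
  rw [h2, norm_neg]
  set C := M / r ^ (2 * k) / T ^ (2 * (K - k)) with hC
  have hC0 : 0 ≤ C := by positivity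
  have hg : Integrable fun x : ι → ℝ => C * (Real.exp (-a * ‖x‖ ^ 2) * ‖x‖ ^ (2 * K)) :=
    (JN_int H.a0 K).const_mul C
  have h3 : ‖∫ x in (closedBall (0 : ι → ℝ) T)ᶜ, fN r G k x‖ ≤
      ∫ x in (closedBall (0 : ι → ℝ) T)ᶜ, C * (Real.exp (-a * ‖x‖ ^ 2) * ‖x‖ ^ (2 * K)) := by
    refine norm_integral_le_of_norm_le hg.integrableOn ?_
    rw [ae_restrict_iff' measurableSet_closedBall.compl]
    refine ae_of_all _ fun x hx => ?_
    have ht' : T ≤ ‖x‖ := by
      by_contra hcon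
      push Not at hcon
      exact hx (by rw [mem_closedBall_zero_iff]; exact hcon.le)
    refine (H.fN_norm k x).trans ?_
    have e1 : ‖x‖ ^ (2 * K) = ‖x‖ ^ (2 * k) * ‖x‖ ^ (2 * (K - k)) := by
      rw [← pow_add]; congr 1; omega
    have e2 : T ^ (2 * (K - k)) ≤ ‖x‖ ^ (2 * (K - k)) := pow_le_pow_left₀ hT.le ht' _
    have e3 : 0 ≤ Real.exp (-a * ‖x‖ ^ 2) * ‖x‖ ^ (2 * k) := JN_fun_nonneg a k x
    have e4 : 0 < T ^ (2 * (K - k)) := by positivity
    have e5 : Real.exp (-a * ‖x‖ ^ 2) * ‖x‖ ^ (2 * k) ≤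
        Real.exp (-a * ‖x‖ ^ 2) * ‖x‖ ^ (2 * K) / T ^ (2 * (K - k)) := by
      rw [le_div_iff₀ e4, e1, ← mul_assoc]
      exact mul_le_mul_of_nonneg_left e2 e3
    refine (mul_le_mul_of_nonneg_left e5 (show 0 ≤ M / r ^ (2 * k) by positivity)).trans
      (le_of_eq ?_)
    rw [hC]; ring
  refine h3.trans ?_
  refine (setIntegral_le_integral hg (ae_of_all _ fun x =>
    mul_nonneg hC0 (JN_fun_nonneg a K x))).trans (le_of_eq ?_)
  rw [integral_const_mul]
  rfl

/-- the terms of the Taylor series -/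
noncomputable def tm (r : ℝ) (G : (ι → ℝ) → ℂ → ℂ) (ν : ℝ) (m : ℕ) (x : ι → ℝ) : ℂ :=
  co r (G x) m * ((ν * ‖x‖ : ℝ) : ℂ) ^ m

theorem HG.tm_int (H : HG r a M G) (ν : ℝ) (m : ℕ) (T : ℝ) :
    IntegrableOn (tm r G ν m) (closedBall (0 : ι → ℝ) T) := by
  have hM := H.M0
  have hr := H.r0
  have h1 : StronglyMeasurable (tm r G ν m) := by
    unfold tm
    exact (H.co_meas m).mul ((Complex.continuous_ofReal.comp
      (continuous_const.mul continuous_norm)).pow m).stronglyMeasurable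
  refine IntegrableOn.of_bound (C := M / r ^ m * (|ν| * T) ^ m)
    (measure_closedBall_lt_top) h1.aestronglyMeasurable ?_
  rw [ae_restrict_iff' measurableSet_closedBall]
  refine ae_of_all _ fun x hx => ?_
  rw [mem_closedBall_zero_iff] at hx
  unfold tm
  rw [norm_mul, norm_pow, Complex.norm_real, Real.norm_eq_abs, abs_mul, abs_norm]
  have h2 : ‖co r (G x) m‖ ≤ M / r ^ m := by
    refine (H.co_norm x m).trans ?_
    have h3 : Real.exp (-a * ‖x‖ ^ 2) ≤ 1 := by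
      rw [Real.exp_le_one_iff]
      have := H.a0
      nlinarith [sq_nonneg ‖x‖]
    rw [div_le_div_iff_of_pos_right (by positivity)]
    exact mul_le_of_le_one_right hM h3
  exact mul_le_mul h2 (pow_le_pow_left₀ (by positivity)
    (mul_le_mul_of_nonneg_left hx (abs_nonneg _)) _) (by positivity) (by positivity)

theorem HG.parity (H : HG r a M G) (ν T : ℝ) (K : ℕ) :
    ∫ x in closedBall (0 : ι → ℝ) T, ∑ m ∈ range (2 * K), tm r G ν m x =
      ∑ k ∈ range K, ((ν : ℂ) ^ 2) ^ k * ∫ x in closedBall (0 : ι → ℝ) T, fN r G k x := by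
  induction K with
  | zero => simp
  | succ K ih =>
    have hs : IntegrableOn (fun x : ι → ℝ => ∑ m ∈ range (2 * K), tm r G ν m x)
        (closedBall (0 : ι → ℝ) T) := integrable_finsetSum _ fun m _ => H.tm_int ν m T
    rw [show 2 * (K + 1) = 2 * K + 1 + 1 by ring]
    simp_rw [sum_range_succ _ (2 * K + 1), sum_range_succ _ (2 * K)]
    have h12 : IntegrableOn (fun x : ι → ℝ =>
        ∑ m ∈ range (2 * K), tm r G ν m x + tm r G ν (2 * K) x)
        (closedBall (0 : ι → ℝ) T) := Integrable.add hs (H.tm_int ν _ T)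
    rw [integral_add h12 (H.tm_int ν _ T), integral_add hs (H.tm_int ν _ T), ih, sum_range_succ]
    have hodd : ∫ x in closedBall (0 : ι → ℝ) T, tm r G ν (2 * K + 1) x = 0 := by
      have h1 : ∫ x in closedBall (0 : ι → ℝ) T, tm r G ν (2 * K + 1) x =
          ∫ x in closedBall (0 : ι → ℝ) T, tm r G ν (2 * K + 1) (-x) := by
        have h2 : (fun x : ι → ℝ => -x) ⁻¹' closedBall (0 : ι → ℝ) T = closedBall 0 T := by
          ext x
          simp
        have h3 := (Measure.measurePreserving_neg (volume : Measure (ι → ℝ))).setIntegral_preimage_emb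
          (MeasurableEquiv.neg (ι → ℝ)).measurableEmbedding (tm r G ν (2 * K + 1))
          (closedBall (0 : ι → ℝ) T)
        have h2' : (Neg.neg : (ι → ℝ) → (ι → ℝ)) ⁻¹' closedBall (0 : ι → ℝ) T =
          closedBall 0 T := h2
        rw [h2'] at h3
        exact h3.symm
      have h4 : ∀ x : ι → ℝ, tm r G ν (2 * K + 1) (-x) = - tm r G ν (2 * K + 1) x := by
        intro x
        unfold tm
        rw [H.co_par, norm_neg, Odd.neg_one_pow ⟨K, rfl⟩]
        ring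
      simp_rw [h4] at h1
      rw [integral_neg] at h1
      exact self_eq_neg.1 h1
    have heven : ∫ x in closedBall (0 : ι → ℝ) T, tm r G ν (2 * K) x =
        ((ν : ℂ) ^ 2) ^ K * ∫ x in closedBall (0 : ι → ℝ) T, fN r G K x := by
      rw [← integral_const_mul]
      congr 1
      funext x
      unfold fN tm
      rw [Complex.ofReal_mul, mul_pow, ← pow_mul]
      ring
    rw [hodd, heven, add_zero]

/-- the expansion for an amplitude independent of `N` -/
theorem HG.main (H : HG r a M G) {η : ℝ} (hη : 0 < η) (hηr : η ≤ r / 2) (K N : ℕ)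
    (hN : 0 < N) (hc : IntegrableOn (fun x : ι → ℝ => G x ((‖x‖ / √N : ℝ) : ℂ))
      (closedBall (0 : ι → ℝ) (η * √N))) :
    ‖(∫ x in closedBall (0 : ι → ℝ) (η * √N), G x ((‖x‖ / √N : ℝ) : ℂ)) -
        ∑ k ∈ range K, AN r G k / (N : ℂ) ^ k‖ ≤
      (2 * M / r ^ (2 * K) * JN ι a K +
        ∑ k ∈ range K, M / r ^ (2 * k) / η ^ (2 * (K - k)) * JN ι a K) / (N : ℝ) ^ K := by
  have hM := H.M0
  have hr := H.r0
  have hN' : (0 : ℝ) < N := by exact_mod_cast hN
  have hsq : (0 : ℝ) < √N := Real.sqrt_pos.2 hN'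
  have hsq2 : √(N : ℝ) ^ 2 = N := Real.sq_sqrt hN'.le
  set T : ℝ := η * √N with hT
  have hT0 : 0 < T := by positivity
  set ν : ℝ := (√N)⁻¹ with hν
  have hν0 : 0 < ν := by positivity
  have hν2 : ν ^ 2 = (N : ℝ)⁻¹ := by rw [hν, inv_pow, hsq2]
  have hdiv : ∀ t : ℝ, t / √N = ν * t := fun t => by rw [hν, div_eq_inv_mul]
  have hsmall : ∀ x ∈ closedBall (0 : ι → ℝ) T, ‖((‖x‖ / √N : ℝ) : ℂ)‖ ≤ r / 2 := by
    intro x hx
    rw [mem_closedBall_zero_iff] at hx
    rw [Complex.norm_real, Real.norm_eq_abs, abs_div, abs_of_pos hsq, div_le_iff₀ hsq, abs_norm]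
    exact hx.trans (by rw [hT]; exact mul_le_mul_of_nonneg_right hηr hsq.le)
  have hcS : IntegrableOn (fun x : ι → ℝ => ∑ m ∈ range (2 * K), tm r G ν m x)
      (closedBall (0 : ι → ℝ) T) := integrable_finsetSum _ fun m _ => H.tm_int ν m T
  -- the two pieces
  have hsplit : (∫ x in closedBall (0 : ι → ℝ) T, G x ((‖x‖ / √N : ℝ) : ℂ)) -
        ∑ k ∈ range K, AN r G k / (N : ℂ) ^ k =
      (∫ x in closedBall (0 : ι → ℝ) T, (G x ((‖x‖ / √N : ℝ) : ℂ) -
        ∑ m ∈ range (2 * K), tm r G ν m x)) +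
      ∑ k ∈ range K, ((ν : ℂ) ^ 2) ^ k *
        ((∫ x in closedBall (0 : ι → ℝ) T, fN r G k x) - AN r G k) := by
    rw [integral_sub hc hcS, H.parity]
    simp_rw [mul_sub]
    rw [sum_sub_distrib]
    have : ∑ k ∈ range K, AN r G k / (N : ℂ) ^ k =
        ∑ k ∈ range K, ((ν : ℂ) ^ 2) ^ k * AN r G k := by
      refine sum_congr rfl fun k _ => ?_
      rw [← Complex.ofReal_pow, hν2, Complex.ofReal_inv, Complex.ofReal_natCast, inv_pow]
      rw [div_eq_mul_inv, mul_comm]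
    rw [this]
    ring
  rw [hsplit, add_div]
  refine (norm_add_le _ _).trans (add_le_add ?_ ?_)
  · have hb : ∀ x ∈ closedBall (0 : ι → ℝ) T, ‖G x ((‖x‖ / √N : ℝ) : ℂ) -
        ∑ m ∈ range (2 * K), tm r G ν m x‖ ≤
        2 * M / r ^ (2 * K) / (N : ℝ) ^ K * (Real.exp (-a * ‖x‖ ^ 2) * ‖x‖ ^ (2 * K)) := by
      intro x hx
      have h1 := taylor_norm H.r0 (H.dc x) (H.bd' x) (hsmall x hx) (2 * K)
      rw [hdiv ‖x‖] at h1 ⊢
      refine h1.trans (le_of_eq ?_)
      rw [Complex.norm_real, Real.norm_eq_abs, div_pow, pow_mul |ν * ‖x‖|, sq_abs, ← pow_mul,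
        mul_pow, pow_mul ν, hν2, inv_pow]
      field_simp
    have hle := norm_integral_le_of_norm_le (μ := volume.restrict (closedBall (0 : ι → ℝ) T))
      (((JN_int (ι := ι) H.a0 K).const_mul
        (2 * M / r ^ (2 * K) / (N : ℝ) ^ K)).integrableOn (s := closedBall (0 : ι → ℝ) T))
      ((ae_restrict_iff' measurableSet_closedBall).2 (ae_of_all _ hb))
    refine hle.trans ?_
    rw [integral_const_mul]
    refine (mul_le_mul_of_nonneg_left (JN_ge H.a0 K _)
      (show 0 ≤ 2 * M / r ^ (2 * K) / (N : ℝ) ^ K by positivity)).trans (le_of_eq ?_)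
    ring
  · refine (norm_sum_le _ _).trans ?_
    rw [sum_div]
    refine sum_le_sum fun k hk => ?_
    have hk' : k ≤ K := (mem_range.1 hk).le
    rw [norm_mul, norm_pow, norm_pow, Complex.norm_real, Real.norm_eq_abs, sq_abs, hν2]
    refine (mul_le_mul_of_nonneg_left (H.tail hk' hT0)
      (show 0 ≤ ((N : ℝ)⁻¹) ^ k by positivity)).trans (le_of_eq ?_)
    have e1 : T ^ (2 * (K - k)) = η ^ (2 * (K - k)) * (N : ℝ) ^ (K - k) := by
      rw [hT, mul_pow, pow_mul (√(N : ℝ)), hsq2]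
    have e2 : (N : ℝ) ^ K = (N : ℝ) ^ k * (N : ℝ) ^ (K - k) := by
      rw [← pow_add]; congr 1; omega
    rw [e1, e2, inv_pow]
    field_simp

end

end Pool.Agent.Q162.HX
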