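import Pool.Agent.Q99.HX.Stm
import Pool.Agent.Q162.HX.FL1
import Pool.Agent.W303.AX.UX1

/-!
# Job HX-FLAP: Laplace's method to all orders in several variables
-/

set_option autoImplicit false

namespace Pool.Agent.Q162.HX

open Finset Filter Topology Metric Complex MeasureTheory
open Pool.Agent.W762.AX
open Pool.Agent.W719.AX (UX)
open Pool.Agent.Q99.HX (Xp UA S_FLAP)
open scoped Real Pointwise

section

variable {ι : Type} [Fintype ι]

/-- the real points -/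
def cx (x : ι → ℝ) : ι → ℂ := fun i => x i

theorem norm_cx (x : ι → ℝ) : ‖cx x‖ = ‖x‖ := by
  unfold cx
  rw [Pi.norm_def, Pi.norm_def]
  congr 2
  funext i
  exact Complex.nnnorm_real (x i)

omit [Fintype ι] in
theorem cx_smul (t : ℝ) (x : ι → ℝ) : cx (t • x) = (t : ℂ) • cx x := by
  funext i
  simp [cx]

omit [Fintype ι] in
theorem cx_cont : Continuous (cx (ι := ι)) :=
  continuous_pi fun i => Complex.continuous_ofReal.comp (continuous_apply i)

/-- the direction of a point -/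
noncomputable def dr (x : ι → ℝ) : ι → ℝ := ‖x‖⁻¹ • x

theorem norm_dr_le (x : ι → ℝ) : ‖dr x‖ ≤ 1 := by
  unfold dr
  rw [norm_smul, norm_inv, norm_norm]
  exact inv_mul_le_one

theorem norm_dr {x : ι → ℝ} (hx : x ≠ 0) : ‖dr x‖ = 1 := by
  unfold dr
  rw [norm_smul, norm_inv, norm_norm]
  exact inv_mul_cancel₀ (norm_ne_zero_iff.2 hx)

theorem smul_dr (x : ι → ℝ) : ‖x‖ • dr x = x := by
  unfold dr
  by_cases hx : x = 0
  · rw [hx]; simp
  · rw [smul_smul, mul_inv_cancel₀ (norm_ne_zero_iff.2 hx), one_smul]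

theorem dr_neg (x : ι → ℝ) : dr (-x) = - dr x := by
  unfold dr
  rw [norm_neg, smul_neg]

theorem dr_meas : Measurable (dr (ι := ι)) :=
  measurable_norm.inv.smul measurable_id

theorem norm_sq_le_sum (x : ι → ℝ) : ‖x‖ ^ 2 ≤ ∑ i, x i ^ 2 := by
  have h1 : ‖x‖ ≤ √(∑ i, x i ^ 2) := by
    rw [pi_norm_le_iff_of_nonneg (Real.sqrt_nonneg _)]
    intro i
    rw [Real.norm_eq_abs]
    apply Real.abs_le_sqrt
    exact Finset.single_le_sum (f := fun i => x i ^ 2) (fun j _ => sq_nonneg (x j))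
      (Finset.mem_univ i)
  have h2 : 0 ≤ ∑ i, x i ^ 2 := Finset.sum_nonneg fun j _ => sq_nonneg (x j)
  calc ‖x‖ ^ 2 ≤ √(∑ i, x i ^ 2) ^ 2 := pow_le_pow_left₀ (norm_nonneg _) h1 2
    _ = _ := Real.sq_sqrt h2

/-- a function along a line -/
def ln (f : (ι → ℂ) → ℂ) (θ : ι → ℂ) (w : ℂ) : ℂ := f (w • θ)

theorem ln_maps {θ : ι → ℂ} (hθ : ‖θ‖ ≤ 1) (δ : ℝ) :
    Set.MapsTo (fun w : ℂ => w • θ) (ball 0 δ) (ball 0 δ) := by
  intro w hw
  rw [mem_ball_zero_iff] at hw ⊢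
  rw [norm_smul]
  exact (mul_le_of_le_one_right (norm_nonneg _) hθ).trans_lt hw

theorem ln_diff {f : (ι → ℂ) → ℂ} {R : ℝ} (hf : AnalyticOnNhd ℂ f (ball 0 R)) {θ : ι → ℂ}
    (hθ : ‖θ‖ ≤ 1) : DifferentiableOn ℂ (ln f θ) (ball 0 R) := by
  have h1 : DifferentiableOn ℂ f (ball 0 R) := hf.differentiableOn
  refine h1.comp ?_ (ln_maps hθ R)
  exact (differentiable_id.smul_const θ).differentiableOn

theorem ln_deriv {f : (ι → ℂ) → ℂ} {R : ℝ} (hR : 0 < R) (hf : AnalyticOnNhd ℂ f (ball 0 R))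
    (hd : fderiv ℂ f 0 = 0) (θ : ι → ℂ) : deriv (ln f θ) 0 = 0 := by
  have h1 : HasFDerivAt f (fderiv ℂ f 0) ((0 : ℂ) • θ) := by
    rw [zero_smul]
    exact (hf 0 (mem_ball_self hR)).differentiableAt.hasFDerivAt
  have h2 : HasDerivAt (fun w : ℂ => w • θ) ((1 : ℂ) • θ) 0 :=
    (hasDerivAt_id (0 : ℂ)).smul_const θ
  have h3 := h1.comp_hasDerivAt (0 : ℂ) h2
  rw [hd] at h3
  exact h3.deriv

/-- the family attached to a phase and an amplitude -/
noncomputable def GG (q h : (ι → ℂ) → ℂ) (x : ι → ℝ) (z : ℂ) : ℂ :=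
  cexp ((‖x‖ ^ 2 : ℝ) * ph (ln q (cx (dr x))) z) * h (z • cx (dr x))

theorem ph_quot {q : ℂ → ℂ} (h0 : q 0 = 0) (h1 : deriv q 0 = 0) {u : ℂ} (hu : u ≠ 0) :
    ph q u = q u / u ^ 2 := by
  rw [ph_eq h0 h1 u]
  field_simp

/-- the main point: the hypotheses of the abstract theorem -/
theorem exists_r {R κ : ℝ} (hR : 0 < R) (hκ : 0 < κ) {q : (ι → ℂ) → ℂ}
    (hq : AnalyticOnNhd ℂ q (ball 0 R)) (hq0 : q 0 = 0) (hq1 : fderiv ℂ q 0 = 0)
    (hre : ∀ x : ι → ℝ, (∀ i, |x i| < R) → (q fun i => x i).re ≤ -κ * ∑ i, x i ^ 2) :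
    ∃ r : ℝ, 0 < r ∧ r < R ∧ ∀ (h : (ι → ℂ) → ℂ) (M : ℝ), AnalyticOnNhd ℂ h (ball 0 R) →
      (∀ z ∈ ball (0 : ι → ℂ) R, ‖h z‖ ≤ M) → HG r (κ / 2) M (GG q h) := by
  set δ : ℝ := R / 2 with hδ
  have hδ0 : 0 < δ := by positivity
  obtain ⟨B, hB⟩ : ∃ B : ℝ, ∀ z ∈ closedBall (0 : ι → ℂ) δ, ‖q z‖ ≤ B := by
    have hc : ContinuousOn q (closedBall 0 δ) :=
      hq.continuousOn.mono (closedBall_subset_ball (by linarith))
    exact (isCompact_closedBall (0 : ι → ℂ) δ).exists_bound_of_continuousOn hc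
  set L : ℝ := 2 * (|B| / δ / δ) / δ + 1 with hL
  have hL0 : 0 < L := by positivity
  set r : ℝ := min (δ / 2) (κ / (2 * L)) with hr
  have hr0 : 0 < r := lt_min (by positivity) (by positivity)
  have hrδ : r < δ := (min_le_left _ _).trans_lt (by linarith)
  have hrL : L * r ≤ κ / 2 := by
    have h1 : r ≤ κ / (2 * L) := min_le_right _ _
    have h2 := mul_le_mul_of_nonneg_left h1 hL0.le
    refine h2.trans (le_of_eq ?_)
    field_simp
  have hcb : closedBall (0 : ℂ) r ⊆ ball 0 δ := closedBall_subset_ball hrδ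
  have hdc : ∀ {f : ℂ → ℂ}, DifferentiableOn ℂ f (ball 0 δ) → DiffContOnCl ℂ f (ball 0 r) := by
    intro f hf
    apply DifferentiableOn.diffContOnCl
    rw [closure_ball _ hr0.ne']
    exact hf.mono hcb
  have hsub : ball (0 : ℂ) δ ⊆ ball 0 R := ball_subset_ball (by linarith)
  -- the quotient along a line
  have hl0 : ∀ θ : ι → ℂ, ln q θ 0 = 0 := fun θ => by unfold ln; rw [zero_smul]; exact hq0
  have hl1 : ∀ θ : ι → ℂ, deriv (ln q θ) 0 = 0 := fun θ => ln_deriv hR hq hq1 θ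
  have hld : ∀ θ : ι → ℂ, ‖θ‖ ≤ 1 → DifferentiableOn ℂ (ln q θ) (ball 0 δ) := fun θ hθ =>
    (ln_diff hq hθ).mono hsub
  have hlb : ∀ θ : ι → ℂ, ‖θ‖ ≤ 1 → ∀ u ∈ ball (0 : ℂ) δ, ‖ln q θ u‖ ≤ B := by
    intro θ hθ u hu
    exact hB _ (ball_subset_closedBall (ln_maps hθ δ hu))
  -- the real part at zero
  have hre0 : ∀ x : ι → ℝ, x ≠ 0 → (ph (ln q (cx (dr x))) 0).re ≤ -κ := by
    intro x hx
    have hθ : ‖cx (dr x)‖ ≤ 1 := by rw [norm_cx]; exact norm_dr_le x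
    have hcont : Tendsto (fun t : ℝ => (ph (ln q (cx (dr x))) (t : ℂ)).re) (𝓝[>] 0)
        (𝓝 (ph (ln q (cx (dr x))) 0).re) := by
      have h1 : ContinuousAt (ph (ln q (cx (dr x)))) 0 :=
        ((ph_diff hδ0 (hld _ hθ)).differentiableAt
          (isOpen_ball.mem_nhds (mem_ball_self hδ0))).continuousAt
      have h2 : Tendsto (fun t : ℝ => (t : ℂ)) (𝓝[>] 0) (𝓝 0) := by
        have : Tendsto (fun t : ℝ => (t : ℂ)) (𝓝 0) (𝓝 ((0 : ℝ) : ℂ)) :=
          Complex.continuous_ofReal.tendsto 0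
        rw [Complex.ofReal_zero] at this
        exact this.mono_left nhdsWithin_le_nhds
      exact (Complex.continuous_re.tendsto _).comp (h1.tendsto.comp h2)
    refine le_of_tendsto hcont ?_
    have hev : ∀ᶠ t : ℝ in 𝓝[>] 0, t < R ∧ 0 < t := by
      refine (Filter.Eventually.and ?_ self_mem_nhdsWithin)
      exact nhdsWithin_le_nhds (gt_mem_nhds hR)
    filter_upwards [hev] with t ht
    have ht0 : (t : ℂ) ≠ 0 := by
      rw [Ne, Complex.ofReal_eq_zero]; exact ht.2.ne'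
    rw [ph_quot (hl0 _) (hl1 _) ht0]
    have h3 : ln q (cx (dr x)) t = q fun i => ((t • dr x) i : ℝ) := by
      unfold ln
      rw [← cx_smul]
      rfl
    rw [h3]
    have h4 : ∀ i, |(t • dr x) i| < R := by
      intro i
      rw [← Real.norm_eq_abs]
      refine (norm_le_pi_norm (t • dr x) i).trans_lt ?_
      rw [norm_smul, norm_dr hx, mul_one, Real.norm_eq_abs, abs_of_pos ht.2]
      exact ht.1
    have h5 := hre _ h4
    have h6 := norm_sq_le_sum (t • dr x)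
    rw [norm_smul, norm_dr hx, mul_one, Real.norm_eq_abs, sq_abs] at h6
    have h7 : ((q fun i => ((t • dr x) i : ℝ)) / (t : ℂ) ^ 2).re =
        (q fun i => ((t • dr x) i : ℝ)).re / t ^ 2 := by
      rw [← Complex.ofReal_pow, Complex.div_ofReal_re]
    rw [h7, div_le_iff₀ (by have := ht.2; positivity)]
    refine h5.trans ?_
    nlinarith
  have hre1 : ∀ x : ι → ℝ, x ≠ 0 → ∀ z : ℂ, ‖z‖ ≤ r →
      (ph (ln q (cx (dr x))) z).re ≤ -(κ / 2) := by
    intro x hx z hz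
    have hθ : ‖cx (dr x)‖ ≤ 1 := by rw [norm_cx]; exact norm_dr_le x
    have h1 := ph_lip hδ0 (hld _ hθ) (hlb _ hθ) (hl0 _) (hl1 _) (u := z)
      (hcb (by rwa [mem_closedBall_zero_iff]))
    have h4 : ‖ph (ln q (cx (dr x))) z - ph (ln q (cx (dr x))) 0‖ ≤ κ / 2 := by
      refine h1.trans (le_trans ?_ hrL)
      have : 2 * (|B| / δ / δ) / δ ≤ L := by rw [hL]; linarith
      exact mul_le_mul this hz (norm_nonneg _) hL0.le
    have h5 := (Complex.abs_re_le_norm (ph (ln q (cx (dr x))) z -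
      ph (ln q (cx (dr x))) 0)).trans h4
    rw [Complex.sub_re] at h5
    have h6 := (abs_le.1 h5).2
    linarith [hre0 x hx]
  refine ⟨r, hr0, by linarith, ?_⟩
  intro h M hh hM
  have hmap : ∀ (x : ι → ℝ) (z : ℂ), ‖z‖ ≤ r → z • cx (dr x) ∈ ball (0 : ι → ℂ) R := by
    intro x z hz
    have hθ : ‖cx (dr x)‖ ≤ 1 := by rw [norm_cx]; exact norm_dr_le x
    exact ln_maps hθ R (by rw [mem_ball_zero_iff]; linarith)
  refine ⟨hr0, by positivity, ?_, ?_, ?_, ?_⟩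
  · intro x
    have hθ : ‖cx (dr x)‖ ≤ 1 := by rw [norm_cx]; exact norm_dr_le x
    have h1 : Differentiable ℂ fun w : ℂ => cexp ((‖x‖ ^ 2 : ℝ) * w) :=
      (differentiable_id.const_mul ((‖x‖ ^ 2 : ℝ) : ℂ)).cexp
    exact (h1.comp_diffContOnCl (hdc (ph_diff hδ0 (hld _ hθ)))).smul
      (hdc ((ln_diff hh hθ).mono hsub))
  · intro x z hz
    unfold GG
    rw [norm_mul, mul_comm M]
    refine mul_le_mul ?_ (hM _ (hmap x z hz)) (norm_nonneg _) (Real.exp_pos _).le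
    rw [Complex.norm_exp, Complex.re_ofReal_mul]
    apply Real.exp_le_exp.2
    by_cases hx : x = 0
    · rw [hx]; simp
    · have := mul_le_mul_of_nonneg_left (hre1 x hx z hz) (sq_nonneg ‖x‖)
      linarith
  · intro x z hz
    have hz0 : z ≠ 0 := by
      rintro rfl
      rw [norm_zero] at hz
      exact hr0.ne hz
    unfold GG
    rw [ph_quot (hl0 _) (hl1 _) hz0, ph_quot (hl0 _) (hl1 _) (neg_ne_zero.2 hz0)]
    unfold ln
    rw [dr_neg, norm_neg]
    have h1 : z • cx (-dr x) = -z • cx (dr x) := by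
      have : cx (-dr x) = - cx (dr x) := by
        funext i
        simp [cx]
      rw [this, smul_neg, neg_smul]
    rw [h1, neg_sq]
  · intro z hz
    have hz0 : z ≠ 0 := by
      rintro rfl
      rw [norm_zero] at hz
      exact hr0.ne hz
    have hm : ∀ f : (ι → ℂ) → ℂ, ContinuousOn f (ball 0 R) →
        Measurable fun x : ι → ℝ => f (z • cx (dr x)) := by
      intro f hf
      classical
      have h1 : Measurable ((ball (0 : ι → ℂ) R).piecewise f (fun _ => 0)) :=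
        hf.measurable_piecewise continuousOn_const isOpen_ball.measurableSet
      have h2 : Measurable fun x : ι → ℝ => z • cx (dr x) :=
        (cx_cont.measurable.comp dr_meas).const_smul z
      have h3 := h1.comp h2
      have h4 : ((ball (0 : ι → ℂ) R).piecewise f (fun _ => 0)) ∘
          (fun x : ι → ℝ => z • cx (dr x)) = fun x => f (z • cx (dr x)) := by
        funext x
        exact Set.piecewise_eq_of_mem _ _ _ (hmap x z hz.le)
      rw [← h4]
      exact h3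
    have h5 : (fun x : ι → ℝ => GG q h x z) = fun x : ι → ℝ =>
        cexp ((‖x‖ ^ 2 : ℝ) * (q (z • cx (dr x)) / z ^ 2)) * h (z • cx (dr x)) := by
      funext x
      unfold GG
      rw [ph_quot (hl0 _) (hl1 _) hz0]
      rfl
    rw [h5]
    have h6 : Measurable fun x : ι → ℝ => ((‖x‖ ^ 2 : ℝ) : ℂ) :=
      (Complex.continuous_ofReal.comp (continuous_norm.pow 2)).measurable
    exact ((h6.mul ((hm q hq.continuousOn).div_const _)).cexp.mul
      (hm h hh.continuousOn)).stronglyMeasurable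

theorem GG_eq {R : ℝ} (hR : 0 < R) {q h : (ι → ℂ) → ℂ}
    (hq : AnalyticOnNhd ℂ q (ball 0 R)) (hq0 : q 0 = 0) (hq1 : fderiv ℂ q 0 = 0) (x : ι → ℝ)
    {N : ℕ} (hN : 0 < N) : GG q h x ((‖x‖ / √N : ℝ) : ℂ) =
      cexp (N * q (cx ((√N)⁻¹ • x))) * h (cx ((√N)⁻¹ • x)) := by
  have hN' : (0 : ℝ) < N := by exact_mod_cast hN
  have hsq : (0 : ℝ) < √N := Real.sqrt_pos.2 hN'
  have hsq2 : √(N : ℝ) ^ 2 = N := Real.sq_sqrt hN'.le
  have h1 : ((‖x‖ / √N : ℝ) : ℂ) • cx (dr x) = cx ((√N)⁻¹ • x) := by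
    rw [← cx_smul]
    congr 1
    rw [div_eq_inv_mul, mul_smul, smul_dr]
  have hl0 : ln q (cx (dr x)) 0 = 0 := by unfold ln; rw [zero_smul]; exact hq0
  have hl1 : deriv (ln q (cx (dr x))) 0 = 0 := ln_deriv hR hq hq1 _
  unfold GG
  rw [h1]
  congr 2
  have h2 := ph_eq hl0 hl1 ((‖x‖ / √N : ℝ) : ℂ)
  have h3 : ln q (cx (dr x)) ((‖x‖ / √N : ℝ) : ℂ) = q (cx ((√N)⁻¹ • x)) := by
    unfold ln; rw [h1]
  rw [← h3, h2, ← mul_assoc]
  congr 1
  have h4 : (N : ℝ) * (‖x‖ / √N) ^ 2 = ‖x‖ ^ 2 := by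
    rw [div_pow, hsq2]; field_simp
  exact_mod_cast h4.symm

/-- **Job FLAP** -/
theorem task_FLAP : S_FLAP := by
  intro ι _ R κ hR hκ q H hq hq0 hq1 hre hHc hUA
  obtain ⟨h, hUX, hh⟩ := hUA
  obtain ⟨r, hr0, hrR, hHG⟩ := exists_r hR hκ hq hq0 hq1 hre
  choose M hM using W303.AX.uxbd _ H h _ hUX
  have hH : ∀ k, HG r (κ / 2) (M k) (GG q (h k)) := fun k => hHG (h k) (M k) (hh k) (hM k)
  refine ⟨r / 2, by positivity, by linarith, ?_⟩
  intro η hη hηr
  refine ⟨fun n => ∑ k ∈ range (n + 1), AN r (GG q (h k)) (n - k), ?_⟩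
  intro K
  obtain ⟨C', hC'⟩ := hUX K
  have ha0 : 0 < κ / 2 := by positivity
  set C0 : ℕ → ℝ := fun k => 2 * M k / r ^ (2 * (K - k)) * JN ι (κ / 2) (K - k) +
      ∑ j ∈ range (K - k), M k / r ^ (2 * j) / η ^ (2 * (K - k - j)) * JN ι (κ / 2) (K - k)
    with hC0
  refine ⟨C' * JN ι (κ / 2) 0 + ∑ k ∈ range K, C0 k, ?_⟩
  filter_upwards [hC', hHc, eventually_gt_atTop 0] with N h1 h2 hN
  have hN' : (0 : ℝ) < N := by exact_mod_cast hN
  have hNc : (N : ℂ) ≠ 0 := by exact_mod_cast hN.ne'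
  have hsq : (0 : ℝ) < √N := Real.sqrt_pos.2 hN'
  have hsq2 : √(N : ℝ) ^ 2 = N := Real.sq_sqrt hN'.le
  set T : ℝ := η * √N with hT
  have hT0 : 0 < T := by positivity
  have hsc : ∀ x ∈ closedBall (0 : ι → ℝ) T, ‖(√N)⁻¹ • x‖ ≤ η := by
    intro x hx
    rw [mem_closedBall_zero_iff] at hx
    rw [norm_smul, norm_inv, Real.norm_eq_abs, abs_of_pos hsq, inv_mul_le_iff₀ hsq]
    exact hx.trans (le_of_eq (mul_comm _ _))
  have hmaps : Set.MapsTo (fun x : ι → ℝ => cx ((√N)⁻¹ • x)) (closedBall 0 T) (ball 0 R) := by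
    intro x hx
    rw [mem_ball_zero_iff, norm_cx]
    exact (hsc x hx).trans_lt (by linarith)
  have hc1 : ContinuousOn (fun x : ι → ℝ => cx ((√N)⁻¹ • x)) (closedBall 0 T) :=
    (cx_cont.comp (continuous_const_smul _)).continuousOn
  -- the substitution
  have hset : {x : ι → ℝ | ∀ i, |x i| ≤ η} = closedBall 0 η := by
    ext x
    rw [mem_closedBall_zero_iff, pi_norm_le_iff_of_nonneg hη.le]
    rfl
  have hsub : ((√N : ℝ) : ℂ) ^ Fintype.card ι * ∫ x in {x : ι → ℝ | ∀ i, |x i| ≤ η},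
      Complex.exp (N * q fun i => x i) * (H N fun i => x i) =
      ∫ x in closedBall (0 : ι → ℝ) T,
        cexp (N * q (cx ((√N)⁻¹ • x))) * H N (cx ((√N)⁻¹ • x)) := by
    have e1 := Measure.setIntegral_comp_smul_of_pos (volume : Measure (ι → ℝ))
      (fun x : ι → ℝ => cexp (N * q (cx x)) * H N (cx x)) (closedBall (0 : ι → ℝ) T)
      (inv_pos.2 hsq)
    have e2 : (√N)⁻¹ • closedBall (0 : ι → ℝ) T = closedBall 0 η := by
      rw [smul_closedBall _ _ hT0.le, smul_zero, norm_inv, Real.norm_eq_abs, abs_of_pos hsq, hT]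
      congr 1
      field_simp
    rw [e2, Module.finrank_fintype_fun_eq_card, inv_pow, inv_inv, Complex.real_smul] at e1
    rw [e1, hset]
    push_cast
    rfl
  rw [hsub]
  set e : (ι → ℝ) → ℂ := fun x => cexp (N * q (cx ((√N)⁻¹ • x))) with he
  have hec : ContinuousOn e (closedBall 0 T) :=
    Complex.continuous_exp.comp_continuousOn
      (continuousOn_const.mul (hq.continuousOn.comp hc1 hmaps))
  have hen : ∀ x ∈ closedBall (0 : ι → ℝ) T, ‖e x‖ ≤ Real.exp (-(κ / 2) * ‖x‖ ^ 2) := by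
    intro x hx
    have h3 := norm_sq_le_sum ((√N)⁻¹ • x)
    have h4 := hre ((√N)⁻¹ • x) (fun i => by
      rw [← Real.norm_eq_abs]
      exact (norm_le_pi_norm _ i).trans_lt ((hsc x hx).trans_lt (by linarith)))
    rw [norm_smul, norm_inv, Real.norm_eq_abs, abs_of_pos hsq, mul_pow, inv_pow, hsq2] at h3
    simp only [he]
    rw [Complex.norm_exp]
    apply Real.exp_le_exp.2
    have h5 : ((N : ℂ) * q (cx ((√N)⁻¹ • x))).re = N * (q (cx ((√N)⁻¹ • x))).re := by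
      have := Complex.re_ofReal_mul (N : ℝ) (q (cx ((√N)⁻¹ • x)))
      rwa [Complex.ofReal_natCast] at this
    rw [h5]
    have h6 : (q (cx ((√N)⁻¹ • x))).re ≤ -κ * ∑ i, ((√N)⁻¹ • x) i ^ 2 := h4
    have h7 : (q (cx ((√N)⁻¹ • x))).re ≤ -κ * ((N : ℝ)⁻¹ * ‖x‖ ^ 2) := by
      refine h6.trans ?_
      nlinarith
    have h8 := mul_le_mul_of_nonneg_left h7 hN'.le
    refine h8.trans ?_
    have h9 : (N : ℝ) * (-κ * ((N : ℝ)⁻¹ * ‖x‖ ^ 2)) = -κ * ‖x‖ ^ 2 := by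
      field_simp
    rw [h9]
    nlinarith [sq_nonneg ‖x‖]
  have hHcont : ContinuousOn (fun x : ι → ℝ => H N (cx ((√N)⁻¹ • x))) (closedBall 0 T) :=
    h2.comp hc1 hmaps
  have hhcont : ∀ k, ContinuousOn (fun x : ι → ℝ => h k (cx ((√N)⁻¹ • x))) (closedBall 0 T) :=
    fun k => (hh k).continuousOn.comp hc1 hmaps
  have hcpt : IsCompact (closedBall (0 : ι → ℝ) T) := isCompact_closedBall _ _
  -- the coefficients
  have hcoef : ∑ n ∈ range K, (∑ k ∈ range (n + 1), AN r (GG q (h k)) (n - k)) / (N : ℂ) ^ n =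
      ∑ k ∈ range K, ((N : ℂ) ^ k)⁻¹ *
        ∑ j ∈ range (K - k), AN r (GG q (h k)) j / (N : ℂ) ^ j := by
    have e1 := Finset.sum_range_diag_flip K (fun k j => ((N : ℂ) ^ k)⁻¹ *
      (AN r (GG q (h k)) j / (N : ℂ) ^ j))
    simp_rw [mul_sum]
    rw [← e1]
    refine sum_congr rfl fun n _ => ?_
    rw [sum_div]
    refine sum_congr rfl fun k hk => ?_
    have hkn : k ≤ n := Nat.lt_succ_iff.1 (mem_range.1 hk)
    have : (N : ℂ) ^ n = (N : ℂ) ^ k * (N : ℂ) ^ (n - k) := by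
      rw [← pow_add]; congr 1; omega
    rw [this]
    field_simp
  rw [hcoef]
  -- splitting
  have hsplit : (∫ x in closedBall (0 : ι → ℝ) T, e x * H N (cx ((√N)⁻¹ • x))) =
      (∫ x in closedBall (0 : ι → ℝ) T, e x * (H N (cx ((√N)⁻¹ • x)) -
        ∑ k ∈ range K, h k (cx ((√N)⁻¹ • x)) / (N : ℂ) ^ k)) +
      ∑ k ∈ range K, ((N : ℂ) ^ k)⁻¹ *
        ∫ x in closedBall (0 : ι → ℝ) T, e x * h k (cx ((√N)⁻¹ • x)) := by
    have i1 : ∀ k, IntegrableOn (fun x : ι → ℝ => ((N : ℂ) ^ k)⁻¹ *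
        (e x * h k (cx ((√N)⁻¹ • x)))) (closedBall 0 T) := fun k =>
      (continuousOn_const.mul (hec.mul (hhcont k))).integrableOn_compact hcpt
    have i2 : IntegrableOn (fun x : ι → ℝ => e x * H N (cx ((√N)⁻¹ • x))) (closedBall 0 T) :=
      (hec.mul hHcont).integrableOn_compact hcpt
    have e1 : (∑ k ∈ range K, ((N : ℂ) ^ k)⁻¹ *
        ∫ x in closedBall (0 : ι → ℝ) T, e x * h k (cx ((√N)⁻¹ • x))) =
        ∫ x in closedBall (0 : ι → ℝ) T, ∑ k ∈ range K, ((N : ℂ) ^ k)⁻¹ *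
          (e x * h k (cx ((√N)⁻¹ • x))) := by
      rw [integral_finsetSum _ fun k _ => i1 k]
      exact sum_congr rfl fun k _ => (integral_const_mul _ _).symm
    have i3 : IntegrableOn (fun x : ι → ℝ => ∑ k ∈ range K, ((N : ℂ) ^ k)⁻¹ *
          (e x * h k (cx ((√N)⁻¹ • x)))) (closedBall 0 T) :=
      integrable_finsetSum _ fun k _ => i1 k
    have e2 : (∫ x in closedBall (0 : ι → ℝ) T, e x * (H N (cx ((√N)⁻¹ • x)) -
        ∑ k ∈ range K, h k (cx ((√N)⁻¹ • x)) / (N : ℂ) ^ k)) =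
        (∫ x in closedBall (0 : ι → ℝ) T, e x * H N (cx ((√N)⁻¹ • x))) -
          ∫ x in closedBall (0 : ι → ℝ) T, ∑ k ∈ range K, ((N : ℂ) ^ k)⁻¹ *
          (e x * h k (cx ((√N)⁻¹ • x))) := by
      rw [← integral_sub i2 i3]
      congr 1
      funext x
      rw [mul_sub, mul_sum]
      congr 1
      refine sum_congr rfl fun k _ => ?_
      rw [div_eq_mul_inv]; ring
    rw [e1, e2]; ring
  rw [hsplit, add_sub_assoc, ← sum_sub_distrib, add_div]
  refine (norm_add_le _ _).trans (add_le_add ?_ ?_)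
  · -- the error of the amplitude
    have hC'0 : 0 ≤ C' / (N : ℝ) ^ K := (norm_nonneg _).trans (h1 0 (mem_ball_self hR))
    have hb : ∀ x ∈ closedBall (0 : ι → ℝ) T, ‖e x * (H N (cx ((√N)⁻¹ • x)) -
        ∑ k ∈ range K, h k (cx ((√N)⁻¹ • x)) / (N : ℂ) ^ k)‖ ≤
        C' / (N : ℝ) ^ K * (Real.exp (-(κ / 2) * ‖x‖ ^ 2) * ‖x‖ ^ (2 * 0)) := by
      intro x hx
      rw [norm_mul, mul_zero, pow_zero, mul_one, mul_comm]
      exact mul_le_mul (h1 _ (hmaps hx)) (hen x hx) (norm_nonneg _) hC'0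
    have hle := norm_integral_le_of_norm_le (μ := volume.restrict (closedBall (0 : ι → ℝ) T))
      (((JN_int (ι := ι) ha0 0).const_mul
        (C' / (N : ℝ) ^ K)).integrableOn (s := closedBall (0 : ι → ℝ) T))
      ((ae_restrict_iff' measurableSet_closedBall).2 (ae_of_all _ hb))
    refine hle.trans ?_
    rw [integral_const_mul]
    refine (mul_le_mul_of_nonneg_left (JN_ge ha0 0 _) hC'0).trans (le_of_eq ?_)
    ring
  · refine (norm_sum_le _ _).trans ?_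
    rw [sum_div]
    refine sum_le_sum fun k hk => ?_
    have hkK : k < K := mem_range.1 hk
    have hG : (fun x : ι → ℝ => GG q (h k) x ((‖x‖ / √N : ℝ) : ℂ)) =
        fun x : ι → ℝ => e x * h k (cx ((√N)⁻¹ • x)) :=
      funext fun x => GG_eq hR hq hq0 hq1 x hN
    have hm := (hH k).main hη hηr (K - k) N hN (by
      rw [hG]
      exact (hec.mul (hhcont k)).integrableOn_compact hcpt)
    rw [hG] at hm
    rw [← mul_sub, norm_mul, norm_inv, norm_pow, Complex.norm_natCast]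
    refine (mul_le_mul_of_nonneg_left hm (show 0 ≤ ((N : ℝ) ^ k)⁻¹ by positivity)).trans
      (le_of_eq ?_)
    have : (N : ℝ) ^ K = (N : ℝ) ^ k * (N : ℝ) ^ (K - k) := by
      rw [← pow_add]; congr 1; omega
    rw [this, hC0]
    field_simp

end

end Pool.Agent.Q162.HX
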