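import Pool.Agent.Q99.HX.Stm
import Pool.Agent.Q280.KN.GAM
import Pool.Agent.W762.AX.Tay
import Pool.Agent.W303.AX.UX1
import Pool.Agent.W67.AX.UX2

/-!
# Job HX-GX: the quantum dilogarithm to all orders
-/

set_option autoImplicit false

namespace Pool.Agent.Q162.HX

open Finset Filter Topology Metric MeasureTheory
open Pool.Agent.W762.AX (co co_norm co_zero taylor_norm)
open Pool.Agent.W719.AX (UX)
open Pool.Agent.Q99.KN (bb ct St LC S_LC S_GAM Gm)
open Pool.Agent.Q280.KN (RI bb_lip Sd_St St_open Gm_eq int_int RI_bd)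
open Pool.Agent.Q99.HX (UA S_GX)

/-- the data of a strip: bounds on discs -/
theorem exists_bd (hL : S_LC) {δ : ℝ} (hδ : 0 < δ) : ∃ B : ℝ, 0 ≤ B ∧
    ∀ x ∈ Q99.HX.Sd δ, ∀ z : ℂ, ‖z‖ ≤ δ / 2 → ‖bb (x + z)‖ ≤ B ∧ ‖LC (x + z)‖ ≤ B := by
  have hclosed : IsClosed (Q280.KN.Sd (δ / 2)) := by
    have h1 : IsClosed {x : ℂ | δ / 2 ≤ x.re} := isClosed_le continuous_const Complex.continuous_re
    have h2 : IsClosed {x : ℂ | x.re ≤ 1 - δ / 2} :=
      isClosed_le Complex.continuous_re continuous_const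
    exact h1.inter h2
  have hK : IsCompact (Q280.KN.Sd (δ / 2) ∩ closedBall (0 : ℂ) (3 + δ)) :=
    (isCompact_closedBall (0 : ℂ) (3 + δ)).inter_left hclosed
  have hδ2 : 0 < δ / 2 := by positivity
  have hbb : ContinuousOn bb (Q280.KN.Sd (δ / 2) ∩ closedBall (0 : ℂ) (3 + δ)) := fun z hz =>
    (hL.2.2.2.1 z (Sd_St hδ2 hz.1)).continuousAt.continuousWithinAt
  have hLC : ContinuousOn LC (Q280.KN.Sd (δ / 2) ∩ closedBall (0 : ℂ) (3 + δ)) := fun z hz =>
    (hL.1 z (Sd_St hδ2 hz.1)).continuousAt.continuousWithinAt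
  obtain ⟨B1, hB1⟩ := hK.exists_bound_of_continuousOn hbb
  obtain ⟨B2, hB2⟩ := hK.exists_bound_of_continuousOn hLC
  refine ⟨|B1| + |B2|, by positivity, ?_⟩
  intro x hx z hz
  obtain ⟨h1, h2, h3⟩ := hx
  have h4 := Complex.abs_re_le_norm z
  have h5 : x + z ∈ Q280.KN.Sd (δ / 2) ∩ closedBall (0 : ℂ) (3 + δ) := by
    constructor
    · show δ / 2 ≤ (x + z).re ∧ (x + z).re ≤ 1 - δ / 2
      rw [Complex.add_re]
      have h6 := abs_le.1 (h4.trans hz)
      constructor <;> linarith [h6.1, h6.2]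
    · rw [mem_closedBall_zero_iff]
      have h6 := norm_add_le x z
      have h7 := Complex.norm_le_abs_re_add_abs_im x
      have h8 : |x.re| ≤ 1 := by rw [abs_le]; constructor <;> linarith
      linarith
  exact ⟨(hB1 _ h5).trans (by linarith [le_abs_self B1, abs_nonneg B2]),
    (hB2 _ h5).trans (by linarith [le_abs_self B2, abs_nonneg B1])⟩

theorem disc_mem {δ : ℝ} {x : ℂ} (hx : x ∈ Q99.HX.Sd δ) {z : ℂ} (hz : ‖z‖ ≤ δ / 2) :
    x + z ∈ Q280.KN.Sd (δ / 2) := by
  obtain ⟨h1, h2, h3⟩ := hx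
  have h4 := Complex.abs_re_le_norm z
  show δ / 2 ≤ (x + z).re ∧ (x + z).re ≤ 1 - δ / 2
  rw [Complex.add_re]
  have h6 := abs_le.1 (h4.trans hz)
  constructor <;> linarith [h6.1, h6.2]

theorem dcc_of {f : ℂ → ℂ} {x : ℂ} {r : ℝ} (hr : 0 < r)
    (hf : ∀ z : ℂ, ‖z‖ ≤ r → DifferentiableAt ℂ f (x + z)) :
    DiffContOnCl ℂ (fun z => f (x + z)) (ball 0 r) := by
  apply DifferentiableOn.diffContOnCl
  rw [closure_ball _ hr.ne']
  intro z hz
  rw [mem_closedBall_zero_iff] at hz
  exact ((hf z hz).comp z (differentiableAt_id.const_add x)).differentiableWithinAt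

/-- the first part -/
theorem ux1 (hL : S_LC) {δ : ℝ} (hδ : 0 < δ) (s : ℝ) :
    UX (fun N x => (N : ℂ) * (LC (x + s / N) - LC x))
      (fun k x => co (δ / 2) (fun z => LC (x + z)) (k + 1) * (s : ℂ) ^ (k + 1))
      (Q99.HX.Sd δ) := by
  obtain ⟨B, hB0, hB⟩ := exists_bd hL hδ
  have hr : 0 < δ / 2 := by positivity
  intro K
  refine ⟨2 * B * (|s| / (δ / 2)) ^ (K + 1), ?_⟩
  have hev : ∀ᶠ N : ℕ in atTop, |s| / (δ / 2 / 2) ≤ (N : ℝ) :=
    tendsto_natCast_atTop_atTop.eventually_ge_atTop _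
  filter_upwards [hev, eventually_gt_atTop 0] with N hN1 hN x hx
  have hN' : (0 : ℝ) < N := by exact_mod_cast hN
  have hNc : (N : ℂ) ≠ 0 := by exact_mod_cast hN.ne'
  have hz : ‖(s / N : ℂ)‖ ≤ δ / 2 / 2 := by
    rw [norm_div, Complex.norm_real, Complex.norm_natCast, Real.norm_eq_abs, div_le_iff₀ hN']
    rw [div_le_iff₀ (by positivity)] at hN1
    linarith
  have hd : DiffContOnCl ℂ (fun z => LC (x + z)) (ball 0 (δ / 2)) :=
    dcc_of hr fun z hz => (hL.1 _ (Sd_St hr (disc_mem hx hz))).differentiableAt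
  have h1 := taylor_norm hr hd (M := B) (fun z hz => (hB x hx z (by
    have : ‖z‖ = δ / 2 := by simpa using hz
    exact this.le)).2) hz (K + 1)
  rw [Finset.sum_range_succ', co_zero hr hd, pow_zero, mul_one, add_zero] at h1
  have h2 : (N : ℂ) * (LC (x + s / N) - LC x) - ∑ k ∈ range K,
      co (δ / 2) (fun z => LC (x + z)) (k + 1) * (s : ℂ) ^ (k + 1) / (N : ℂ) ^ k =
      N * (LC (x + s / N) - (∑ k ∈ range K,
        co (δ / 2) (fun z => LC (x + z)) (k + 1) * (s / N : ℂ) ^ (k + 1) + LC x)) := by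
    rw [← sub_sub, sub_right_comm, mul_sub _ (LC (x + s / N) - LC x), mul_sum]
    congr 1
    refine sum_congr rfl fun k _ => ?_
    rw [div_pow, pow_succ (N : ℂ) k]
    field_simp
  rw [h2, norm_mul, Complex.norm_natCast]
  refine (mul_le_mul_of_nonneg_left h1 hN'.le).trans (le_of_eq ?_)
  rw [norm_div, Complex.norm_real, Complex.norm_natCast, Real.norm_eq_abs]
  rw [div_right_comm |s| (N : ℝ) (δ / 2), div_pow _ (N : ℝ), pow_succ (N : ℝ) K]
  field_simp

/-- Taylor's formula for `bb` in the whole strip -/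
theorem bb_rem (hL : S_LC) {δ : ℝ} (hδ : 0 < δ) (M : ℕ) (hM : 1 ≤ M) : ∃ C : ℝ, 0 ≤ C ∧
    ∀ x ∈ Q99.HX.Sd δ, ∀ w : ℂ, x + w ∈ Q280.KN.Sd (δ / 2) →
      ‖bb (x + w) - ∑ m ∈ range M, co (δ / 2) (fun z => bb (x + z)) m * w ^ m‖ ≤ C * ‖w‖ ^ M := by
  obtain ⟨B, hB0, hB⟩ := exists_bd hL hδ
  have hr : 0 < δ / 2 := by positivity
  have hpi := Real.pi_pos
  set r := δ / 2 with hrd
  refine ⟨2 * B / r ^ M + (B + Real.pi / (2 * r) * (r / 2) + M * B) * (2 / r) ^ M,
    by positivity, ?_⟩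
  intro x hx w hw
  have hd : DiffContOnCl ℂ (fun z => bb (x + z)) (ball 0 r) :=
    dcc_of hr fun z hz => (hL.2.2.2.1 _ (Sd_St hr (disc_mem hx hz))).differentiableAt
  have hBs : ∀ z ∈ sphere (0 : ℂ) r, ‖bb (x + z)‖ ≤ B := fun z hz => (hB x hx z (by
    have : ‖z‖ = r := by simpa using hz
    exact this.le)).1
  have hw0 : 0 ≤ ‖w‖ ^ M := by positivity
  by_cases hcase : ‖w‖ ≤ r / 2
  · refine (taylor_norm hr hd hBs hcase M).trans ?_
    rw [div_pow, add_mul]
    have h1 : 2 * B * (‖w‖ ^ M / r ^ M) = 2 * B / r ^ M * ‖w‖ ^ M := by ring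
    rw [h1]
    have h2 : 0 ≤ (B + Real.pi / (2 * r) * (r / 2) + M * B) * (2 / r) ^ M * ‖w‖ ^ M := by
      positivity
    linarith
  · push Not at hcase
    set u : ℝ := 2 / r * ‖w‖ with hu
    have hu1 : 1 ≤ u := by
      rw [hu, div_mul_eq_mul_div, le_div_iff₀ hr]
      linarith
    have huM : 1 ≤ u ^ M := one_le_pow₀ hu1
    have hwu : ‖w‖ = r / 2 * u := by rw [hu]; field_simp
    have huM1 : u ≤ u ^ M := by
      calc u = u ^ 1 := (pow_one u).symm
        _ ≤ u ^ M := pow_le_pow_right₀ hu1 hM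
    have h1 : ‖bb (x + w)‖ ≤ (B + Real.pi / (2 * r) * (r / 2)) * u ^ M := by
      have hx0 : x ∈ Q280.KN.Sd r := by
        have := disc_mem hx (z := 0) (by rw [norm_zero]; exact hr.le)
        rwa [add_zero] at this
      have h2 := bb_lip hL hr hx0 hw
      rw [add_sub_cancel_left] at h2
      have h3 := (hB x hx 0 (by rw [norm_zero]; exact hr.le)).1
      rw [add_zero] at h3
      have h4 : ‖bb (x + w)‖ ≤ ‖bb x‖ + ‖bb (x + w) - bb x‖ := by
        have := norm_add_le (bb x) (bb (x + w) - bb x)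
        rwa [add_sub_cancel] at this
      have h5 : Real.pi / (2 * r) * ‖w‖ ≤ Real.pi / (2 * r) * (r / 2) * u ^ M := by
        rw [hwu, ← mul_assoc]
        exact mul_le_mul_of_nonneg_left huM1 (by positivity)
      have h6 : B ≤ B * u ^ M := le_mul_of_one_le_right hB0 huM
      rw [add_mul]
      linarith
    have h2 : ‖∑ m ∈ range M, co r (fun z => bb (x + z)) m * w ^ m‖ ≤ M * B * u ^ M := by
      have h3 : ∀ m ∈ range M, ‖co r (fun z => bb (x + z)) m * w ^ m‖ ≤ B * u ^ M := by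
        intro m hm
        rw [mem_range] at hm
        rw [norm_mul, norm_pow]
        have h4 := co_norm hr hBs m
        refine (mul_le_mul_of_nonneg_right h4 (by positivity)).trans ?_
        have h5 : B / r ^ m * ‖w‖ ^ m = B * (u / 2) ^ m := by
          have hrm : r ^ m ≠ 0 := (pow_pos hr m).ne'
          rw [hwu, show r / 2 * u = r * (u / 2) by ring, mul_pow r (u / 2) m, div_mul_eq_mul_div,
            div_eq_iff hrm]
          ring
        rw [h5]
        refine mul_le_mul_of_nonneg_left ?_ hB0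
        calc (u / 2) ^ m ≤ u ^ m := pow_le_pow_left₀ (by linarith) (by linarith) m
          _ ≤ u ^ M := pow_le_pow_right₀ hu1 hm.le
      refine (norm_sum_le_of_le _ h3).trans (le_of_eq ?_)
      rw [sum_const, card_range, nsmul_eq_mul]
      ring
    refine (norm_sub_le _ _).trans ?_
    have h3 : u ^ M = (2 / r) ^ M * ‖w‖ ^ M := by rw [hu, mul_pow]
    have h4 : (B + Real.pi / (2 * r) * (r / 2)) * u ^ M + M * B * u ^ M =
        (B + Real.pi / (2 * r) * (r / 2) + M * B) * (2 / r) ^ M * ‖w‖ ^ M := by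
      rw [h3]; ring
    have h5 : 0 ≤ 2 * B / r ^ M * ‖w‖ ^ M := by positivity
    rw [add_mul]
    linarith

/-- the weight -/
noncomputable def wt (t : ℝ) : ℝ := Real.exp (2 * Real.pi * t) + 1

theorem wt_pos (t : ℝ) : 0 < wt t := by unfold wt; positivity

theorem wt_cont : Continuous wt := by unfold wt; fun_prop

theorem pow_wt_le (s : ℝ) (m : ℕ) {t : ℝ} (ht : 0 ≤ t) :
    (|s| + t) ^ m / wt t ≤ m.factorial * Real.exp |s| * Real.exp (-t) := by
  have hpi := Real.pi_gt_three
  rw [div_le_iff₀ (wt_pos t)]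
  have h1 := Real.pow_div_factorial_le_exp (|s| + t) (by positivity) m
  rw [div_le_iff₀ (by positivity)] at h1
  refine h1.trans ?_
  have h2 : Real.exp t ≤ Real.exp (-t) * wt t := by
    unfold wt
    have e1 : Real.exp t ≤ Real.exp (-t) * Real.exp (2 * Real.pi * t) := by
      rw [← Real.exp_add]
      apply Real.exp_le_exp.2
      nlinarith
    have e2 := Real.exp_pos (-t)
    nlinarith
  rw [Real.exp_add]
  have h3 : 0 ≤ (m.factorial : ℝ) * Real.exp |s| := by positivity
  calc Real.exp |s| * Real.exp t * (m.factorial : ℝ) =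
      (m.factorial : ℝ) * Real.exp |s| * Real.exp t := by ring
    _ ≤ (m.factorial : ℝ) * Real.exp |s| * (Real.exp (-t) * wt t) :=
        mul_le_mul_of_nonneg_left h2 h3
    _ = _ := by ring

/-- the integrands of the coefficients -/
noncomputable def pm (s : ℝ) (m : ℕ) (t : ℝ) : ℂ :=
  (((s : ℂ) + Complex.I * t) ^ m - ((s : ℂ) - Complex.I * t) ^ m) / (wt t : ℂ)

theorem pm_cont (s : ℝ) (m : ℕ) : Continuous (pm s m) := by
  unfold pm
  refine Continuous.div (by fun_prop) (Complex.continuous_ofReal.comp wt_cont) fun t => ?_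
  exact Complex.ofReal_ne_zero.2 (wt_pos t).ne'

theorem norm_sp (s : ℝ) {t : ℝ} (ht : 0 ≤ t) :
    ‖(s : ℂ) + Complex.I * t‖ ≤ |s| + t ∧ ‖(s : ℂ) - Complex.I * t‖ ≤ |s| + t := by
  have h1 : ‖(s : ℂ)‖ = |s| := by rw [Complex.norm_real, Real.norm_eq_abs]
  have h2 : ‖Complex.I * (t : ℂ)‖ = t := by
    rw [norm_mul, Complex.norm_I, one_mul, Complex.norm_real, Real.norm_of_nonneg ht]
  constructor
  · have := norm_add_le (s : ℂ) (Complex.I * t)
    rwa [h1, h2] at this
  · have := norm_sub_le (s : ℂ) (Complex.I * t)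
    rwa [h1, h2] at this

theorem pm_norm (s : ℝ) (m : ℕ) {t : ℝ} (ht : 0 ≤ t) :
    ‖pm s m t‖ ≤ 2 * (m.factorial * Real.exp |s|) * Real.exp (-t) := by
  unfold pm
  rw [norm_div, Complex.norm_real, Real.norm_of_nonneg (wt_pos t).le]
  have h1 : ‖((s : ℂ) + Complex.I * t) ^ m - ((s : ℂ) - Complex.I * t) ^ m‖ ≤
      2 * (|s| + t) ^ m := by
    refine (norm_sub_le _ _).trans ?_
    rw [norm_pow, norm_pow]
    have a1 := pow_le_pow_left₀ (norm_nonneg _) (norm_sp s ht).1 m
    have a2 := pow_le_pow_left₀ (norm_nonneg _) (norm_sp s ht).2 m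
    linarith
  refine (div_le_div_of_nonneg_right h1 (wt_pos t).le).trans ?_
  rw [mul_div_assoc]
  have := pow_wt_le s m ht
  nlinarith

theorem pm_int (s : ℝ) (m : ℕ) : IntegrableOn (pm s m) (Set.Ioi 0) := by
  have h1 : IntegrableOn (fun t : ℝ => 2 * (m.factorial * Real.exp |s|) * Real.exp (-t))
      (Set.Ioi 0) := (integrableOn_exp_neg_Ioi 0).const_mul _
  refine Integrable.mono' h1 (pm_cont s m).aestronglyMeasurable.restrict ?_
  rw [ae_restrict_iff' measurableSet_Ioi]
  exact Filter.Eventually.of_forall fun t ht => pm_norm s m (le_of_lt ht)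

/-- the second part -/
theorem ux2 (hL : S_LC) {δ : ℝ} (hδ : 0 < δ) (s : ℝ) :
    UX (fun N x => Complex.I * RI N (x + s / N))
      (fun k x => Complex.I * (co (δ / 2) (fun z => bb (x + z)) k *
        ∫ t in Set.Ioi (0 : ℝ), pm s k t)) (Q99.HX.Sd δ) := by
  have hr : 0 < δ / 2 := by positivity
  have hpi := Real.pi_pos
  intro K
  have hev : ∀ᶠ N : ℕ in atTop, |s| / (δ / 2) ≤ (N : ℝ) :=
    tendsto_natCast_atTop_atTop.eventually_ge_atTop _
  have hmem : ∀ N : ℕ, 0 < N → |s| / (δ / 2) ≤ (N : ℝ) → ∀ x ∈ Q99.HX.Sd δ,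
      x + s / N ∈ Q280.KN.Sd (δ / 2) := by
    intro N hN hN1 x hx
    have hN' : (0 : ℝ) < N := by exact_mod_cast hN
    refine disc_mem hx ?_
    rw [norm_div, Complex.norm_real, Complex.norm_natCast, Real.norm_eq_abs, div_le_iff₀ hN']
    rw [div_le_iff₀ hr] at hN1
    linarith
  rcases Nat.eq_zero_or_pos K with rfl | hK
  · refine ⟨Real.pi / (δ / 2), ?_⟩
    filter_upwards [hev, eventually_gt_atTop 0] with N hN1 hN x hx
    have hN' : (0 : ℝ) < N := by exact_mod_cast hN
    have h1 := RI_bd hL hr (N := N) hN (hmem N hN hN1 x hx)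
    rw [range_zero, sum_empty, sub_zero, norm_mul, Complex.norm_I, one_mul, pow_zero, div_one]
    refine h1.trans (div_le_self (by positivity) ?_)
    exact_mod_cast hN
  · obtain ⟨C, hC0, hC⟩ := bb_rem hL hδ K hK
    refine ⟨2 * C * (K.factorial * Real.exp |s|), ?_⟩
    filter_upwards [hev, eventually_gt_atTop 0] with N hN1 hN x hx
    have hN' : (0 : ℝ) < N := by exact_mod_cast hN
    have hNc : (N : ℂ) ≠ 0 := by exact_mod_cast hN.ne'
    have hx' := hmem N hN hN1 x hx
    set T : ℝ → ℂ := fun t => (bb (x + s / N + Complex.I * t / N) -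
      bb (x + s / N - Complex.I * t / N)) / (Real.exp (2 * Real.pi * t) + 1 : ℝ) with hT
    have hTi : IntegrableOn T (Set.Ioi 0) := int_int hL hN (Sd_St hr hx')
    have hRI : RI N (x + s / N) = ∫ t in Set.Ioi (0 : ℝ), T t := rfl
    set c : ℕ → ℂ := fun m => co (δ / 2) (fun z => bb (x + z)) m with hc
    have hsum : IntegrableOn (fun t => ∑ m ∈ range K, c m / (N : ℂ) ^ m * pm s m t)
        (Set.Ioi 0) := integrable_finsetSum _ fun m _ => (pm_int s m).const_mul _
    have h2 : Complex.I * RI N (x + s / N) - ∑ k ∈ range K, Complex.I *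
        (c k * ∫ t in Set.Ioi (0 : ℝ), pm s k t) / (N : ℂ) ^ k =
        Complex.I * ∫ t in Set.Ioi (0 : ℝ),
          (T t - ∑ m ∈ range K, c m / (N : ℂ) ^ m * pm s m t) := by
      rw [integral_sub hTi hsum, integral_finsetSum _ fun m _ => (pm_int s m).const_mul _, hRI,
        mul_sub, mul_sum]
      congr 1
      refine sum_congr rfl fun m _ => ?_
      rw [integral_const_mul]
      ring
    rw [h2, norm_mul, Complex.norm_I, one_mul]
    have hbd : ∀ t ∈ Set.Ioi (0 : ℝ), ‖T t - ∑ m ∈ range K, c m / (N : ℂ) ^ m * pm s m t‖ ≤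
        2 * C * (K.factorial * Real.exp |s|) / (N : ℝ) ^ K * Real.exp (-t) := by
      intro t ht
      have ht0 : 0 ≤ t := le_of_lt ht
      set wp : ℂ := ((s : ℂ) + Complex.I * t) / N with hwp
      set wm : ℂ := ((s : ℂ) - Complex.I * t) / N with hwm
      have e1 : x + s / N + Complex.I * t / N = x + wp := by rw [hwp]; ring
      have e2 : x + s / N - Complex.I * t / N = x + wm := by rw [hwm]; ring
      have m1 : x + wp ∈ Q280.KN.Sd (δ / 2) := by
        rw [← e1]
        show δ / 2 ≤ (x + s / N + Complex.I * t / N).re ∧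
          (x + s / N + Complex.I * t / N).re ≤ 1 - δ / 2
        rw [(Q280.KN.sh_re N (x + s / N) t).1]
        exact hx'
      have m2 : x + wm ∈ Q280.KN.Sd (δ / 2) := by
        rw [← e2]
        show δ / 2 ≤ (x + s / N - Complex.I * t / N).re ∧
          (x + s / N - Complex.I * t / N).re ≤ 1 - δ / 2
        rw [(Q280.KN.sh_re N (x + s / N) t).2]
        exact hx'
      have n1 : ‖wp‖ ≤ (|s| + t) / N := by
        rw [hwp, norm_div, Complex.norm_natCast]
        exact div_le_div_of_nonneg_right (norm_sp s ht0).1 hN'.le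
      have n2 : ‖wm‖ ≤ (|s| + t) / N := by
        rw [hwm, norm_div, Complex.norm_natCast]
        exact div_le_div_of_nonneg_right (norm_sp s ht0).2 hN'.le
      have h3 := hC x hx wp m1
      have h4 := hC x hx wm m2
      have e3 : T t - ∑ m ∈ range K, c m / (N : ℂ) ^ m * pm s m t =
          ((bb (x + wp) - ∑ m ∈ range K, c m * wp ^ m) -
            (bb (x + wm) - ∑ m ∈ range K, c m * wm ^ m)) / (wt t : ℂ) := by
        have e4 : ∑ m ∈ range K, c m / (N : ℂ) ^ m * pm s m t =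
            (∑ m ∈ range K, c m * wp ^ m - ∑ m ∈ range K, c m * wm ^ m) / (wt t : ℂ) := by
          rw [← sum_sub_distrib, sum_div]
          refine sum_congr rfl fun m _ => ?_
          unfold pm
          rw [hwp, hwm, div_pow, div_pow]
          field_simp
        rw [e4]
        simp only [hT]
        rw [e1, e2]
        have e5 : ((Real.exp (2 * Real.pi * t) + 1 : ℝ) : ℂ) = (wt t : ℂ) := rfl
        rw [e5]
        ring
      rw [e3, norm_div, Complex.norm_real, Real.norm_of_nonneg (wt_pos t).le]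
      have h5 : ‖(bb (x + wp) - ∑ m ∈ range K, c m * wp ^ m) -
            (bb (x + wm) - ∑ m ∈ range K, c m * wm ^ m)‖ ≤ 2 * C * ((|s| + t) / N) ^ K := by
        refine (norm_sub_le _ _).trans ?_
        have a1 := mul_le_mul_of_nonneg_left (pow_le_pow_left₀ (norm_nonneg _) n1 K) hC0
        have a2 := mul_le_mul_of_nonneg_left (pow_le_pow_left₀ (norm_nonneg _) n2 K) hC0
        linarith
      refine (div_le_div_of_nonneg_right h5 (wt_pos t).le).trans ?_
      have h6 := pow_wt_le s K ht0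
      have h7 : 2 * C * ((|s| + t) / N) ^ K / wt t =
          2 * C / (N : ℝ) ^ K * ((|s| + t) ^ K / wt t) := by
        rw [div_pow]; ring
      rw [h7]
      refine (mul_le_mul_of_nonneg_left h6 (by positivity)).trans (le_of_eq ?_)
      ring
    have h8 := norm_integral_le_of_norm_le (μ := volume.restrict (Set.Ioi 0))
      ((integrableOn_exp_neg_Ioi 0).const_mul
        (2 * C * (K.factorial * Real.exp |s|) / (N : ℝ) ^ K))
      ((ae_restrict_iff' measurableSet_Ioi).2 (Filter.Eventually.of_forall hbd))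
    rw [integral_const_mul, integral_exp_neg_Ioi_zero, mul_one] at h8
    exact h8

/-- **Job GX** -/
theorem task_GX : S_GX := by
  intro hL hG δ hδ s
  obtain ⟨B, hB, -⟩ := W67.AX.uxexp W303.AX.uxbd W303.AX.uxmul ℂ _ _ _
    (W67.AX.uxadd (ux1 hL hδ s) (ux2 hL hδ s))
  have hfun : (fun (N : ℕ) (x : ℂ) => Complex.exp ((N : ℂ) * (LC (x + s / N) - LC x) +
      Complex.I * RI N (x + s / N))) =
      fun N x => Gm N (x + s / N) * Complex.exp (-(N * LC x)) := by
    funext N x
    rw [Gm_eq, ← Complex.exp_add]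
    congr 1
    ring
  rw [hfun] at hB
  have hopen : IsOpen (Q99.HX.Sd δ) := by
    have h1 : IsOpen {x : ℂ | δ < x.re} := isOpen_lt continuous_const Complex.continuous_re
    have h2 : IsOpen {x : ℂ | x.re < 1 - δ} := isOpen_lt Complex.continuous_re continuous_const
    have h3 : IsOpen {x : ℂ | |x.im| < 1} :=
      isOpen_lt (continuous_abs.comp Complex.continuous_im) continuous_const
    exact h1.inter (h2.inter h3)
  refine ⟨B, hB, fun k => ?_⟩
  have hdiff : ∀ᶠ N : ℕ in atTop, DifferentiableOn ℂ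
      (fun x => Gm N (x + s / N) * Complex.exp (-(N * LC x))) (Q99.HX.Sd δ) := by
    have hr : 0 < δ / 2 := by positivity
    have hev : ∀ᶠ N : ℕ in atTop, |s| / (δ / 2) ≤ (N : ℝ) :=
      tendsto_natCast_atTop_atTop.eventually_ge_atTop _
    filter_upwards [hev, eventually_gt_atTop 0] with N hN1 hN x hx
    have hN' : (0 : ℝ) < N := by exact_mod_cast hN
    have hx' : x + s / N ∈ St := by
      refine Sd_St hr (disc_mem hx ?_)
      rw [norm_div, Complex.norm_real, Complex.norm_natCast, Real.norm_eq_abs, div_le_iff₀ hN']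
      rw [div_le_iff₀ hr] at hN1
      linarith
    have hx0 : x ∈ St := by
      have := disc_mem hx (z := 0) (by rw [norm_zero]; exact hr.le)
      rw [add_zero] at this
      exact Sd_St hr this
    have h1 : DifferentiableAt ℂ (Gm N) (x + s / N) :=
      (hG hL).1 N hN |>.differentiableAt (St_open.mem_nhds hx')
    have h2 : DifferentiableAt ℂ (Gm N ∘ fun x => x + s / N) x :=
      DifferentiableAt.comp x h1 (differentiableAt_id.add_const _)
    have h3 : DifferentiableAt ℂ LC x := (hL.1 x hx0).differentiableAt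
    exact (h2.mul ((h3.const_mul (N : ℂ)).neg.cexp)).differentiableWithinAt
  exact (W303.AX.uxan _ _ _ hopen hdiff hB k).analyticOnNhd hopen

end Pool.Agent.Q162.HX
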